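import Pool.Agent.E8helper59.PN.Stm

set_option autoImplicit false
open Set
open scoped Pointwise Topology

namespace Pool.Agent.E8helper51.PN

open Pool.Agent.E8helper59.PN

/-- a symmetric convex body is a neighbourhood of the origin -/
lemma body_nhds {n : ℕ} {G : Set (Fin n → ℝ)} (hG : Body G) (hs : ∀ x ∈ G, -x ∈ G) :
    G ∈ 𝓝 (0 : Fin n → ℝ) := by
  obtain ⟨_, hconv, ⟨a, ha⟩⟩ := hG
  have hna : -a ∈ interior G := by
    have hneg : (-G) = G := by
      ext x
      constructor
      · intro hx
        have := hs _ (Set.mem_neg.mp hx)
        simpa using this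
      · intro hx
        exact Set.mem_neg.mpr (hs x hx)
    have h1 : -a ∈ -(interior G) := by simpa using ha
    have h2 : -(interior G) = interior (-G) := by
      have := (Homeomorph.neg (Fin n → ℝ)).preimage_interior G
      simpa using this
    rw [h2, hneg] at h1
    exact h1
  have h0 : (0 : Fin n → ℝ) ∈ interior G := by
    have := hconv.interior ha hna (by norm_num : (0 : ℝ) ≤ 1 / 2) (by norm_num : (0 : ℝ) ≤ 1 / 2)
      (by norm_num)
    simpa using this
  exact mem_interior_iff_mem_nhds.mp h0

lemma mem_of_gauge {n : ℕ} {G : Set (Fin n → ℝ)} (hG : Body G) (hs : ∀ x ∈ G, -x ∈ G)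
    {x : Fin n → ℝ} (hx : gauge G x ≤ 1) : x ∈ G := by
  have h := (gauge_le_one_iff_mem_closure hG.2.1 (body_nhds hG hs)).mp hx
  rwa [hG.1.isClosed.closure_eq] at h

theorem t_GC : S_GC := by
  intro n G D hn hG hs hD hall
  have hc : 0 < 1 / D := by positivity
  -- coordinates vectors
  have hunit : ∀ i : Fin n, gauge G (Pi.single i (1 : ℝ)) = D := by
    intro i
    have h := hall (fun j => decide (j = i)) (fun _ => false)
      (fun h => by simpa using congrFun h i)
    have he : (vx (fun j => decide (j = i)) - vx (fun _ => false) : Fin n → ℝ)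
        = Pi.single i (1 : ℝ) := by
      funext j
      simp only [vx, Pi.sub_apply]
      by_cases hj : j = i
      · subst hj; simp
      · simp [hj]
    rwa [he] at h
  have hsign : ∀ u : Fin n → Bool, gauge G (fun i => if u i then (1 : ℝ) else -1) = D := by
    intro u
    have hne : u ≠ fun i => !(u i) := by
      intro h
      have := congrFun h ⟨0, hn⟩
      simp at this
    have h := hall u (fun i => !(u i)) hne
    have he : (vx u - vx (fun i => !(u i)) : Fin n → ℝ)
        = fun i => if u i then (1 : ℝ) else -1 := by
      funext j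
      simp only [vx, Pi.sub_apply]
      by_cases hj : u j = true <;> simp [hj]
    rwa [he] at h
  -- the cube is contained in G
  have hsup : ∀ x : Fin n → ℝ, (∀ i, |x i| ≤ 1 / D) → x ∈ G := by
    intro x hx
    have h1 : x ∈ convexHull ℝ (Set.univ.pi (fun _ : Fin n => ({-(1 / D), 1 / D} : Set ℝ))) := by
      rw [convexHull_pi]
      intro i _
      rw [convexHull_pair, segment_eq_Icc (by linarith)]
      exact abs_le.mp (hx i)
    refine convexHull_min ?_ hG.2.1 h1
    intro y hy
    have hy' : ∀ i, y i = -(1 / D) ∨ y i = 1 / D := by
      intro i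
      simpa using hy i (Set.mem_univ i)
    apply mem_of_gauge hG hs
    have he : y = (1 / D) • (fun i => if decide (y i = 1 / D) then (1 : ℝ) else -1) := by
      funext i
      simp only [Pi.smul_apply, smul_eq_mul]
      by_cases h : y i = 1 / D
      · simp [h]
      · rcases hy' i with h' | h'
        · simp only [h, decide_false]
          rw [h']; simp
        · exact absurd h' h
    rw [he, gauge_smul_of_nonneg hc.le, hsign]
    simp [hD.ne']
  -- the bound of a coordinate
  have hsub : ∀ g ∈ G, ∀ i, g i ≤ 1 / D := by
    intro g hg i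
    by_contra hlt
    rw [not_le] at hlt
    have hgi : 0 < g i := hc.trans hlt
    have hN : 0 < ‖g‖ := by
      have : ‖g i‖ ≤ ‖g‖ := norm_le_pi_norm g i
      rw [Real.norm_eq_abs, abs_of_pos hgi] at this
      linarith
    set c : ℝ := 1 / D with hcdef
    set N : ℝ := ‖g‖ with hNdef
    let q : Fin n → ℝ := fun j => if j = i then c else -(c / N) * g j
    have hq : q ∈ G := by
      apply hsup
      intro j
      by_cases hj : j = i
      · simp only [q, hj, if_true]
        rw [abs_of_pos hc]
      · simp only [q, hj, if_false]
        rw [abs_mul, abs_neg, abs_of_pos (div_pos hc hN)]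
        have h1 : |g j| ≤ N := by
          have : ‖g j‖ ≤ ‖g‖ := norm_le_pi_norm g j
          rwa [Real.norm_eq_abs] at this
        calc c / N * |g j| ≤ c / N * N := by
              apply mul_le_mul_of_nonneg_left h1 (div_pos hc hN).le
          _ = c := by field_simp
    have hNc : 0 < N + c := by linarith
    have hcomb := hG.2.1 hg hq (div_pos hc hNc).le (div_pos hN hNc).le
      (by field_simp; ring)
    have he : (c / (N + c)) • g + (N / (N + c)) • q
        = (c / (N + c) * g i + N / (N + c) * c) • (Pi.single i (1 : ℝ) : Fin n → ℝ) := by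
      funext j
      simp only [Pi.add_apply, Pi.smul_apply, smul_eq_mul]
      by_cases hj : j = i
      · subst hj
        simp [q]
      · simp only [q, hj, if_false, Pi.single_eq_of_ne hj, mul_zero]
        field_simp
        ring
    rw [he] at hcomb
    have ht : 0 < c / (N + c) * g i + N / (N + c) * c := by positivity
    have hga := gauge_le_one_of_mem hcomb
    rw [gauge_smul_of_nonneg ht.le, hunit, smul_eq_mul] at hga
    have hle : c / (N + c) * g i + N / (N + c) * c ≤ c := by
      rw [hcdef, le_div_iff₀ hD]
      exact hga
    have hgt : c < c / (N + c) * g i + N / (N + c) * c := by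
      have h1 : c = c / (N + c) * c + N / (N + c) * c := by field_simp; ring
      have h2 : c / (N + c) * c < c / (N + c) * g i :=
        mul_lt_mul_of_pos_left hlt (div_pos hc hNc)
      linarith
    linarith
  apply Set.Subset.antisymm
  · intro g hg i
    rw [abs_le]
    refine ⟨?_, hsub g hg i⟩
    have := hsub (-g) (hs g hg) i
    simp only [Pi.neg_apply] at this
    linarith
  · intro x hx
    exact hsup x hx

end Pool.Agent.E8helper51.PN
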